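import Pool.Agent.Lib.MP_2eed13_lc.LCA.Base

/-!
# Module CAT: the net effect of the catalytic procedure
-/

set_option autoImplicit false

namespace Pool.Agent.Lib.MP_2eed13_lc.LCA.H16

open Finset

theorem dig_two_add (b y z v : ℕ) (hy : y < 2 ^ b) :
    dig 2 (y + z * 2 ^ b) v = if v < b then dig 2 y v else dig 2 z (v - b) := by
  unfold dig
  split_ifs with h
  · obtain ⟨d, rfl⟩ : ∃ d, b = v + 1 + d := ⟨b - (v + 1), by omega⟩
    have h1 : y + z * 2 ^ (v + 1 + d) = y + (2 * (z * 2 ^ d)) * 2 ^ v := by
      rw [pow_add, pow_add]; ring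
    rw [h1, Nat.add_mul_div_right _ _ (by positivity), Nat.add_mul_mod_self_left]
  · obtain ⟨d, rfl⟩ : ∃ d, v = b + d := ⟨v - b, by omega⟩
    rw [Nat.add_sub_cancel_left, pow_add, ← Nat.div_div_eq_div_mul,
      Nat.add_mul_div_right _ _ (by positivity), Nat.div_eq_of_lt hy, zero_add]

theorem dig_three (b x0 x1 x2 v : ℕ) (h0 : x0 < 2 ^ b) (h1 : x1 < 2 ^ b) (hv : v < 3 * b) :
    dig 2 (x0 + x1 * 2 ^ b + x2 * 2 ^ (2 * b)) v =
      if v / b = 0 then dig 2 x0 (v % b) else if v / b = 1 then dig 2 x1 (v % b)
      else dig 2 x2 (v % b) := by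
  have hb : 0 < b := by
    rcases Nat.eq_zero_or_pos b with h | h
    · subst h; omega
    · exact h
  have e : x0 + x1 * 2 ^ b + x2 * 2 ^ (2 * b) = x0 + (x1 + x2 * 2 ^ b) * 2 ^ b := by
    rw [two_mul, pow_add]; ring
  rw [e, dig_two_add b _ _ _ h0]
  by_cases c0 : v < b
  · have : v / b = 0 := Nat.div_eq_of_lt c0
    rw [if_pos c0, if_pos this, Nat.mod_eq_of_lt c0]
  · rw [if_neg c0, dig_two_add b _ _ _ h1]
    by_cases c1 : v < 2 * b
    · have hd : v / b = 1 := by
        apply Nat.div_eq_of_lt_le
        · omega
        · omega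
      have hm : v % b = v - b := by
        have := Nat.div_add_mod v b
        rw [hd] at this
        omega
      rw [if_pos (by omega), hd, if_neg (by omega), if_pos rfl, hm]
    · have hd : v / b = 2 := by
        apply Nat.div_eq_of_lt_le
        · omega
        · omega
      have hm : v % b = v - b - b := by
        have := Nat.div_add_mod v b
        rw [hd] at this
        omega
      rw [if_neg (by omega), hd, if_neg (by omega), if_neg (by omega), hm]

theorem regOf_ne {r c : ℕ} (hr : r < 4) (hc : c < 3) : regOf r c ≠ r := by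
  unfold regOf
  omega

theorem regOf_inj {r c d : ℕ} (hc : c < 3) (hd : d < 3) (h : regOf r c = regOf r d) : c = d := by
  unfold regOf at h
  omega

theorem regOf_lt (r c : ℕ) : regOf r c < 4 := Nat.mod_lt _ (by norm_num)

theorem extA_congr {p b : ℕ} (G : ℕ → ℕ) (X Y : ℕ → ZMod p) (k : ℕ)
    (h : ∀ v, v < 3 * b → X v = Y v) : extA p b G X k = extA p b G Y k := by
  unfold extA
  refine Finset.sum_congr rfl fun u _ => ?_
  congr 1
  refine Finset.prod_congr rfl fun v hv => ?_
  rw [h v (Finset.mem_range.1 hv)]

/-- the nine slots of one value of `a` -/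
theorem nine {p b : ℕ} (hp : p.Prime) (G : ℕ → ℕ)
    (sub : ℕ → ℕ → ℕ → (ℕ → ℕ → ZMod p) → (ℕ → ℕ → ZMod p)) (x : ℕ → ℕ)
    (hx : ∀ i, x i < 2 ^ b)
    (hsub : ∀ i r s R, r < 4 → sub i r s R = addA r (sgn p s) (bitsA p (x i)) R)
    (i r s a : ℕ) (hr : r < 4) (ha : a + 1 < p) (R : ℕ → ℕ → ZMod p) :
    slot p b G sub i r s (9 * a + 8) (slot p b G sub i r s (9 * a + 7)
      (slot p b G sub i r s (9 * a + 6) (slot p b G sub i r s (9 * a + 5)
      (slot p b G sub i r s (9 * a + 4) (slot p b G sub i r s (9 * a + 3)
      (slot p b G sub i r s (9 * a + 2) (slot p b G sub i r s (9 * a + 1)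
      (slot p b G sub i r s (9 * a) R)))))))) =
    addA r (-(sgn p s)) (fun k => extA p b G (fun v => ((a + 1 : ℕ) : ZMod p) * varA b r R v +
      (dig 2 (x (i - 1) + x i * 2 ^ b + x (i + 1) * 2 ^ (2 * b)) v : ZMod p)) k) R := by
  have := Fact.mk hp
  have ha0 : ((a + 1 : ℕ) : ZMod p) ≠ 0 := by
    rw [Ne, ZMod.natCast_eq_zero_iff]
    intro h
    exact absurd (Nat.le_of_dvd (by omega) h) (by omega)
  have s0 : ∀ R, slot p b G sub i r s (9 * a) R = scaleA r ((a + 1 : ℕ) : ZMod p) R := by
    intro R
    unfold slot
    rw [if_pos (by omega), show 9 * a / 9 = a by omega]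
  have s1 : ∀ R, slot p b G sub i r s (9 * a + 1) R =
      addA (regOf r 0) 1 (bitsA p (x (i - 1))) R := by
    intro R
    unfold slot
    rw [if_neg (by omega), if_pos (by omega), show (9 * a + 1) % 9 = 1 by omega,
      hsub _ _ _ _ (regOf_lt _ _)]
    rw [show i + 1 - 2 = i - 1 by omega]
    rfl
  have s2 : ∀ R, slot p b G sub i r s (9 * a + 2) R =
      addA (regOf r 1) 1 (bitsA p (x i)) R := by
    intro R
    unfold slot
    rw [if_neg (by omega), if_pos (by omega), show (9 * a + 2) % 9 = 2 by omega,
      hsub _ _ _ _ (regOf_lt _ _)]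
    rw [show i + 2 - 2 = i by omega]
    rfl
  have s3 : ∀ R, slot p b G sub i r s (9 * a + 3) R =
      addA (regOf r 2) 1 (bitsA p (x (i + 1))) R := by
    intro R
    unfold slot
    rw [if_neg (by omega), if_pos (by omega), show (9 * a + 3) % 9 = 3 by omega,
      hsub _ _ _ _ (regOf_lt _ _)]
    rw [show i + 3 - 2 = i + 1 by omega]
    rfl
  have s4 : ∀ R, slot p b G sub i r s (9 * a + 4) R =
      addA r (-(sgn p s)) (extA p b G (varA b r R)) R := by
    intro R
    unfold slot
    rw [if_neg (by omega), if_neg (by omega), if_pos (by omega)]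
  have s5 : ∀ R, slot p b G sub i r s (9 * a + 5) R =
      addA (regOf r 0) (-1) (bitsA p (x (i - 1))) R := by
    intro R
    unfold slot
    rw [if_neg (by omega), if_neg (by omega), if_neg (by omega), if_pos (by omega),
      show (9 * a + 5) % 9 = 5 by omega, hsub _ _ _ _ (regOf_lt _ _)]
    rw [show i + 5 - 6 = i - 1 by omega]
    rfl
  have s6 : ∀ R, slot p b G sub i r s (9 * a + 6) R =
      addA (regOf r 1) (-1) (bitsA p (x i)) R := by
    intro R
    unfold slot
    rw [if_neg (by omega), if_neg (by omega), if_neg (by omega), if_pos (by omega),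
      show (9 * a + 6) % 9 = 6 by omega, hsub _ _ _ _ (regOf_lt _ _)]
    rw [show i + 6 - 6 = i by omega]
    rfl
  have s7 : ∀ R, slot p b G sub i r s (9 * a + 7) R =
      addA (regOf r 2) (-1) (bitsA p (x (i + 1))) R := by
    intro R
    unfold slot
    rw [if_neg (by omega), if_neg (by omega), if_neg (by omega), if_pos (by omega),
      show (9 * a + 7) % 9 = 7 by omega, hsub _ _ _ _ (regOf_lt _ _)]
    rw [show i + 7 - 6 = i + 1 by omega]
    rfl
  have s8 : ∀ R, slot p b G sub i r s (9 * a + 8) R = scaleA r ((a + 1 : ℕ) : ZMod p)⁻¹ R := by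
    intro R
    unfold slot
    rw [if_neg (by omega), if_neg (by omega), if_neg (by omega), if_neg (by omega),
      show (9 * a + 8) / 9 = a by omega]
  rw [s8, s7, s6, s5, s4, s3, s2, s1, s0]
  have n0 : r ≠ regOf r 0 := (regOf_ne hr (by norm_num)).symm
  have n1 : r ≠ regOf r 1 := (regOf_ne hr (by norm_num)).symm
  have n2 : r ≠ regOf r 2 := (regOf_ne hr (by norm_num)).symm
  funext r' k
  by_cases c : r' = r
  · subst c
    simp only [addA, scaleA, if_true, if_neg n0, if_neg n1, if_neg n2]
    congr 2
    refine extA_congr G _ _ k fun v hv => ?_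
    have hb : 0 < b := by
      rcases Nat.eq_zero_or_pos b with h | h
      · subst h; omega
      · exact h
    have hvb : v / b < 3 := by
      rw [Nat.div_lt_iff_lt_mul hb]; exact hv
    rw [dig_three b _ _ _ v (hx _) (hx _) hv]
    unfold varA
    have hne : regOf r' (v / b) ≠ r' := regOf_ne hr hvb
    by_cases d0 : v / b = 0
    · rw [d0] at hne ⊢
      have e1 : regOf r' 0 ≠ regOf r' 1 := fun h => by
        have := regOf_inj (by norm_num) (by norm_num) h
        omega
      have e2 : regOf r' 0 ≠ regOf r' 2 := fun h => by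
        have := regOf_inj (by norm_num) (by norm_num) h
        omega
      simp only [addA, scaleA, if_neg e1, if_neg e2, if_neg hne, if_true, one_mul]
      rfl
    · by_cases d1 : v / b = 1
      · rw [d1] at hne ⊢
        have e1 : regOf r' 1 ≠ regOf r' 0 := fun h => by
          have := regOf_inj (by norm_num) (by norm_num) h
          omega
        have e2 : regOf r' 1 ≠ regOf r' 2 := fun h => by
          have := regOf_inj (by norm_num) (by norm_num) h
          omega
        simp only [addA, scaleA, if_neg e1, if_neg e2, if_neg hne, if_true, one_mul, one_ne_zero,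
          if_false]
        rfl
      · have d2 : v / b = 2 := by
          revert hvb d0 d1
          generalize v / b = y
          intro h1 h2 h3
          omega
        rw [d2] at hne ⊢
        have e1 : regOf r' 2 ≠ regOf r' 0 := fun h => by
          have := regOf_inj (by norm_num) (by norm_num) h
          omega
        have e2 : regOf r' 2 ≠ regOf r' 1 := fun h => by
          have := regOf_inj (by norm_num) (by norm_num) h
          omega
        simp only [addA, scaleA, if_neg e1, if_neg e2, if_neg hne, if_true, one_mul]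
        rw [if_neg (by norm_num), if_neg (by norm_num)]
        rfl
  · simp only [addA, scaleA, if_neg c]
    have key : ∀ y z w : ZMod p, ((a + 1 : ℕ) : ZMod p)⁻¹ * (((a + 1 : ℕ) : ZMod p) * y) = y := by
      intro y _ _
      rw [← mul_assoc, inv_mul_cancel₀ ha0, one_mul]
    by_cases c0 : r' = regOf r 0
    · have e1 : r' ≠ regOf r 1 := fun h => by
        have := regOf_inj (by norm_num) (by norm_num) (c0.symm.trans h)
        omega
      have e2 : r' ≠ regOf r 2 := fun h => by
        have := regOf_inj (by norm_num) (by norm_num) (c0.symm.trans h)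
        omega
      simp only [if_neg e1, if_neg e2, if_pos c0]
      rw [show ((a + 1 : ℕ) : ZMod p) * R r' k + 1 * bitsA p (x (i - 1)) k +
        -1 * bitsA p (x (i - 1)) k = ((a + 1 : ℕ) : ZMod p) * R r' k by ring]
      exact key _ 0 0
    · by_cases c1 : r' = regOf r 1
      · have e2 : r' ≠ regOf r 2 := fun h => by
          have := regOf_inj (by norm_num) (by norm_num) (c1.symm.trans h)
          omega
        simp only [if_neg c0, if_neg e2, if_pos c1]
        rw [show ((a + 1 : ℕ) : ZMod p) * R r' k + 1 * bitsA p (x i) k +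
          -1 * bitsA p (x i) k = ((a + 1 : ℕ) : ZMod p) * R r' k by ring]
        exact key _ 0 0
      · by_cases c2 : r' = regOf r 2
        · simp only [if_neg c0, if_neg c1, if_pos c2]
          rw [show ((a + 1 : ℕ) : ZMod p) * R r' k + 1 * bitsA p (x (i + 1)) k +
            -1 * bitsA p (x (i + 1)) k = ((a + 1 : ℕ) : ZMod p) * R r' k by ring]
          exact key _ 0 0
        · simp only [if_neg c0, if_neg c1, if_neg c2]
          exact key _ 0 0

theorem tval_lt {b : ℕ} {G L : ℕ → ℕ} (hG : ∀ u, G u < 2 ^ b) (hL : ∀ i, L i < 2 ^ b) (j i : ℕ) :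
    tval b G L j i < 2 ^ b := by
  cases j with
  | zero => exact hL i
  | succ j => exact hG _

/-- **CAT.** -/
theorem cat (h1 : SumStatement) : CatStatement := by
  intro p b hp hpb hb G L hG hL j
  induction j with
  | zero => intro i r s hr R; rfl
  | succ j ih =>
    intro i r s hr R
    have key : ∀ a, a ≤ p - 1 →
        runTo (fun d => slot p b G (PA p b G L j) i r s d) (9 * a) R =
        addA r (-(sgn p s)) (fun k => ∑ a' ∈ range a, extA p b G (fun v =>
          ((a' + 1 : ℕ) : ZMod p) * varA b r R v + (dig 2 (tval b G L j (i - 1) +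
            tval b G L j i * 2 ^ b + tval b G L j (i + 1) * 2 ^ (2 * b)) v : ZMod p)) k) R := by
      intro a
      induction a with
      | zero =>
        intro _
        funext r' k
        simp [runTo, addA]
      | succ a iha =>
        intro ha
        have e : runTo (fun d => slot p b G (PA p b G L j) i r s d) (9 * (a + 1)) R =
            slot p b G (PA p b G L j) i r s (9 * a + 8)
            (slot p b G (PA p b G L j) i r s (9 * a + 7)
            (slot p b G (PA p b G L j) i r s (9 * a + 6)
            (slot p b G (PA p b G L j) i r s (9 * a + 5)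
            (slot p b G (PA p b G L j) i r s (9 * a + 4)
            (slot p b G (PA p b G L j) i r s (9 * a + 3)
            (slot p b G (PA p b G L j) i r s (9 * a + 2)
            (slot p b G (PA p b G L j) i r s (9 * a + 1)
            (slot p b G (PA p b G L j) i r s (9 * a)
            (runTo (fun d => slot p b G (PA p b G L j) i r s d) (9 * a) R))))))))) := by
          rw [show 9 * (a + 1) = 9 * a + 9 by ring]
          rfl
        rw [e, nine hp G (PA p b G L j) (tval b G L j) (tval_lt hG hL j)
          (fun i' r' s' R' hr' => ih i' r' s' hr' R') i r s a hr (by omega), iha (by omega)]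
        have hv : ∀ (c : ℕ → ZMod p) (z : ZMod p) (v : ℕ), v < 3 * b →
            varA b r (addA r z c R) v = varA b r R v := by
          intro c z v hv
          have hvb : v / b < 3 := by
            rw [Nat.div_lt_iff_lt_mul (by omega)]; exact hv
          have hne : regOf r (v / b) ≠ r := regOf_ne hr hvb
          simp only [varA, addA, if_neg hne]
        funext r' k
        by_cases c : r' = r
        · subst c
          simp only [addA, if_true]
          rw [Finset.sum_range_succ, mul_add, ← add_assoc]
          congr 2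
          refine extA_congr G _ _ k fun v hv' => ?_
          have := hv (fun k => ∑ a' ∈ range a, extA p b G (fun v =>
            ((a' + 1 : ℕ) : ZMod p) * varA b r' R v + (dig 2 (tval b G L j (i - 1) +
            tval b G L j i * 2 ^ b + tval b G L j (i + 1) * 2 ^ (2 * b)) v : ZMod p)) k)
            (-(sgn p s)) v hv'
          rw [this]
        · simp only [addA, if_neg c]
    have hw : tval b G L j (i - 1) + tval b G L j i * 2 ^ b +
        tval b G L j (i + 1) * 2 ^ (2 * b) < 2 ^ (3 * b) := by
      have a0 := tval_lt hG hL j (i - 1)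
      have a1 := tval_lt hG hL j i
      have a2 := tval_lt hG hL j (i + 1)
      have e2 : (2 : ℕ) ^ (2 * b) = 2 ^ b * 2 ^ b := by rw [two_mul, pow_add]
      have e3 : (2 : ℕ) ^ (3 * b) = 2 ^ b * 2 ^ b * 2 ^ b := by
        rw [show 3 * b = b + b + b by ring, pow_add, pow_add]
      rw [e2, e3]
      nlinarith [Nat.mul_le_mul_right (2 ^ b) (Nat.succ_le_of_lt a1),
        Nat.mul_le_mul_right (2 ^ b * 2 ^ b) (Nat.succ_le_of_lt a2)]
    have k2 := key (p - 1) le_rfl
    show runTo (fun d => slot p b G (PA p b G L j) i r s d) (9 * (p - 1)) R = _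
    rw [k2]
    funext r' k
    by_cases c : r' = r
    · subst c
      simp only [addA, if_true]
      rw [h1 p b hp hpb G _ k (varA b r' R) hw]
      simp only [bitsA, tval]
      ring
    · simp only [addA, if_neg c]

end Pool.Agent.Lib.MP_2eed13_lc.LCA.H16
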